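import Pool.Agent.Lib.MP_688fd0_co.SQ6.H96.Merge
import Pool.Agent.Lib.MP_688fd0_co.SQ6.H79.Cell
import Pool.Agent.Lib.MP_688fd0_co.SQ6.H80.Lst
import Pool.Agent.Lib.MP_688fd0_co.SQ6.H74.Part
import Pool.Agent.Lib.MP_688fd0_co.SQ6.H93.Gen
import Pool.Agent.Lib.MP_688fd0_co.SQ6.Flip
import Pool.Agent.Lib.MP_688fd0_co.SQ6.H90.Rows
import Pool.Agent.Lib.MP_688fd0_co.SQ6.H90.Mergc
import Pool.Agent.Lib.MP_688fd0_co.SQ6.H39.Cover
import Pool.Agent.Lib.MP_688fd0_co.SQ6.H22.Dih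
import Pool.Agent.Lib.MP_688fd0_co.SQ6.H22.Orb
import Pool.Agent.Lib.MP_688fd0_co.SQ6.Eul
import Pool.Agent.Lib.MP_688fd0_co.SQ6.Cen
import Pool.Agent.Lib.MP_688fd0_co.SQ6.H42.Tower
import Pool.Agent.Lib.MP_688fd0_co.SQ6.H9.Twoh

/-!
Board B1*: all rows together.
-/

set_option autoImplicit false

namespace Pool.Agent.Lib.MP_688fd0_co.SQ6.H23

theorem cover : CoverS := H39.cover_proof H90.comm H90.loc H90.quad H90.grow

theorem merge : MergeS := H96.merge (H90.mergc_proof cover H22.orb H22.dih) gen Flip.flip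

theorem cell : CellS := H79.cell_proof LstRow.lst eul cen TowerRow.tower

/-- Reflections with two `P`-heights. -/
theorem twoH : TwoHS := H9.twoh_proof merge cell H74.part

end Pool.Agent.Lib.MP_688fd0_co.SQ6.H23
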